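import Pool.Agent.Helper27.AB.PH3.Goals

/-! # Project AB, module PH3: assembly of `S_PHI3` from the packets. -/

open MeasureTheory Set Filter Topology
open scoped ContDiff

noncomputable section

namespace Pool.Agent.Helper27.AB

open Pool.Agent.Helper24.AB Pool.Agent.Helper15.AB

theorem WP_ge_one (q : Par) (t : ℝ) : 1 ≤ WP q t := by
  unfold WP Wf
  have h1 := abs_nonneg (uf q.1.1 t)
  have h2 := abs_nonneg (vf q.1.2.1 t)
  have h3 := abs_nonneg (q.1.2.2)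
  linarith

/-- part P8: the polynomial bounds -/
theorem phi3_bdd (hDTP : S_DTP) (hSMP : S_SMP) (hCMW : S_CMW)
    (a A δ₀ ρ₀ : ℝ) (s : ℝ → ℝ) (p : ℂ → ℝ) (B : BlockData)
    (hpr : IsProfile a A s) (hpo : IsPotential a δ₀ ρ₀ p B) (k : ℕ) (hk : 1 ≤ k) :
    ∃ (C : ℝ) (N : ℕ), ∀ α α' l : ℝ, α ≠ 0 → ∀ w ∈ strip a,
      |dT^[k] (Phi a A s p α α' l) w| ≤ C * Wf α α' l w.im ^ N ∧
      ‖dT^[k] (dz (fun w => (Phi a A s p α α' l w : ℂ))) w‖ ≤ C * Wf α α' l w.im ^ N := by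
  obtain ⟨k', rfl⟩ : ∃ k', k = k' + 1 := ⟨k - 1, by omega⟩
  have hPB := hDTP a A δ₀ ρ₀ s p B hpr hpo (k' + 1)
  obtain ⟨C1, N1, h1⟩ := hPB.bdd (List.replicate k' true) (by simp)
  obtain ⟨C2, N2, h2⟩ := hPB.bdd (List.replicate k' true ++ [false]) (by simp)
  obtain ⟨C3, N3, h3⟩ := hPB.bdd (List.replicate (k' + 1) true) (by simp)
  refine ⟨|C1| + |C2| + |C3|, N1 + N2 + N3, ?_⟩
  intro α α' l hα w hw
  have hW : 1 ≤ Wf α α' l w.im := WP_ge_one ⟨(α, α', l), hα⟩ w.im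
  have hsm := hSMP a A δ₀ ρ₀ s p B hpr hpo α α' l hα
  obtain ⟨e1, e2⟩ := hCMW a _ hsm k' w hw
  have b1 := h1 ⟨(α, α', l), hα⟩ w hw
  have b2 := h2 ⟨(α, α', l), hα⟩ w hw
  have b3 := h3 ⟨(α, α', l), hα⟩ w hw
  have key : ∀ (C : ℝ) (N : ℕ) (x : ℝ), N ≤ N1 + N2 + N3 → x ≤ C * Wf α α' l w.im ^ N →
      x ≤ |C| * Wf α α' l w.im ^ (N1 + N2 + N3) := by
    intro C N x hN hx
    have hp : Wf α α' l w.im ^ N ≤ Wf α α' l w.im ^ (N1 + N2 + N3) := pow_le_pow_right₀ hW hN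
    have hp0 : 0 ≤ Wf α α' l w.im ^ N := pow_nonneg (by linarith) _
    calc x ≤ C * Wf α α' l w.im ^ N := hx
      _ ≤ |C| * Wf α α' l w.im ^ N := mul_le_mul_of_nonneg_right (le_abs_self C) hp0
      _ ≤ _ := mul_le_mul_of_nonneg_left hp (abs_nonneg C)
  have c1 := key C1 N1 _ (by omega) b1
  have c2 := key C2 N2 _ (by omega) b2
  have c3 := key C3 N3 _ (by omega) b3
  have hP0 : 0 ≤ Wf α α' l w.im ^ (N1 + N2 + N3) := pow_nonneg (by linarith) _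
  have q1 : 0 ≤ |C1| * Wf α α' l w.im ^ (N1 + N2 + N3) := mul_nonneg (abs_nonneg _) hP0
  have q2 : 0 ≤ |C2| * Wf α α' l w.im ^ (N1 + N2 + N3) := mul_nonneg (abs_nonneg _) hP0
  have q3 : 0 ≤ |C3| * Wf α α' l w.im ^ (N1 + N2 + N3) := mul_nonneg (abs_nonneg _) hP0
  constructor
  · rw [e1]
    have : |Dw (List.replicate k' true) (dT (Phi a A s p α α' l)) w| ≤
        |C1| * Wf α α' l w.im ^ (N1 + N2 + N3) := c1
    nlinarith
  · rw [e2]
    have d2 : |Dw (List.replicate k' true ++ [false]) (dT (Phi a A s p α α' l)) w| ≤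
        |C2| * Wf α α' l w.im ^ (N1 + N2 + N3) := c2
    have d3 : |Dw (List.replicate (k' + 1) true) (dT (Phi a A s p α α' l)) w| ≤
        |C3| * Wf α α' l w.im ^ (N1 + N2 + N3) := c3
    have hn : ∀ x y : ℝ, ‖((x : ℂ) - Complex.I * (y : ℂ)) / 2‖ ≤ |x| + |y| := by
      intro x y
      rw [norm_div]
      have h4 : ‖(x : ℂ) - Complex.I * (y : ℂ)‖ ≤ |x| + |y| := by
        refine (norm_sub_le _ _).trans ?_
        simp
      have h5 : ‖(2 : ℂ)‖ = 2 := by simp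
      rw [h5]
      have := abs_nonneg x
      have := abs_nonneg y
      linarith
    refine (hn _ _).trans ?_
    nlinarith

/-- part P10: the meaning of `Φ` -/
theorem phi3_int (hGWI : S_GWI) (hBALL : S_BALL) (hQF : S_QF)
    (a A : ℝ) (s : ℝ → ℝ) (p : ℂ → ℝ)
    (hpr : IsProfile a A s) (α α' l : ℝ) (w : ℂ) (hw : w ∈ strip a) :
    Real.exp (-(2 * Phi a A s p α α' l w)) =
      ∫ X in Gw a A s p w, Real.exp (2 * (α * ((X 0 - ph' * X 1) / Real.sqrt 5) +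
        α' * ((ph * X 1 - X 0) / Real.sqrt 5) + l * X 2)) := by
  rw [hGWI a A s p hpr α α' l w hw, hBALL]
  have hw' : |w.re| < a := hw
  have hI : w.re ∈ Ioo (-a) a := by
    rw [abs_lt] at hw'
    exact ⟨hw'.1, hw'.2⟩
  have hs : 0 < s w.re := hpr.pos _ hI
  have he : 0 < a ^ 2 - w.re ^ 2 := by
    have := hI.1
    have := hI.2
    nlinarith
  have hA := hpr.A_pos
  have hF : (∑ i, (![s w.re * uf α w.im,
        2 * A * Real.sqrt (a ^ 2 - w.re ^ 2) * vf α' w.im,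
        2 * A * Real.sqrt (a ^ 2 - w.re ^ 2) * l] : Fin 3 → ℝ) i ^ 2) = Ff a A s α α' l w := by
    rw [Fin.sum_univ_three]
    simp only [Matrix.cons_val_zero, Matrix.cons_val_one, Matrix.cons_val]
    unfold Ff gf
    have h2 := Real.sq_sqrt he.le
    have : ∀ r : ℝ, r ^ 2 = a ^ 2 - w.re ^ 2 →
      (s w.re * uf α w.im) ^ 2 + (2 * A * r * vf α' w.im) ^ 2 + (2 * A * r * l) ^ 2 =
      s w.re ^ 2 * uf α w.im ^ 2 + 4 * A ^ 2 * (a ^ 2 - w.re ^ 2) * (vf α' w.im ^ 2 + l ^ 2) := by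
      intro r hr
      rw [← hr]
      ring
    exact this _ h2
  rw [hF]
  have hf : 0 < fy (2 * Real.sqrt (Ff a A s α α' l w)) := hQF.2.1 _
  have h5 : 0 < Real.sqrt 5 := Real.sqrt_pos.mpr (by norm_num)
  have hc : 0 < 4 * Real.sqrt 5 * Real.pi * A ^ 2 := by
    have := Real.pi_pos
    positivity
  have e1 : -(2 * Phi a A s p α α' l w) = 2 * (A * uf α w.im - α * p w) +
      (Real.log (s w.re) + (Real.log (a ^ 2 - w.re ^ 2) +
        (Real.log (fy (2 * Real.sqrt (Ff a A s α α' l w))) +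
          Real.log (4 * Real.sqrt 5 * Real.pi * A ^ 2)))) := by
    unfold Phi Phi0
    ring
  rw [e1, Real.exp_add, Real.exp_add, Real.exp_add, Real.exp_add, Real.exp_log hs,
    Real.exp_log he, Real.exp_log hf, Real.exp_log hc]
  ring

theorem phi3_of (hDTP : S_DTP) (hSMP : S_SMP) (hCMW : S_CMW) (hEQV : S_EQV) (hGWI : S_GWI)
    (hBALL : S_BALL) (hQF : S_QF) : S_PHI3 := by
  intro a A δ₀ ρ₀ s p B hpr hpo
  refine ⟨phi3_bdd hDTP hSMP hCMW a A δ₀ ρ₀ s p B hpr hpo,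
    hEQV a A δ₀ ρ₀ s p B hpo, ?_⟩
  intro α α' l w hw
  exact phi3_int hGWI hBALL hQF a A s p hpr α α' l w hw

end Pool.Agent.Helper27.AB
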