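import Pool.Agent.Helper27.AB.PH3.Asm
import Pool.Agent.Helper64.AB.BALL3
import Pool.Agent.Helper50.AB.GWI3
import Pool.Agent.Helper5.AB.POLB3
import Pool.Agent.Helper62.AB.POLP3
import Pool.Agent.Helper56.AB.SMP3
import Pool.Agent.Helper13.AB.POLL3
import Pool.Agent.Helper58.AB.CMW3
import Pool.Agent.Helper20.AB.EQV3
import Pool.Agent.Helper55.AB.POLF3
import Pool.Agent.Helper16.AB.QF
import Pool.Agent.Helper39.AB.TEX
import Pool.Agent.Helper68.AB.LAM
import Pool.Agent.Helper58.AB.ATL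
import Pool.Agent.Helper37.AB.POLA3
import Pool.Agent.Helper3.AB.DTP3

/-! # Project AB, module PH3: `S_PHI3` without hypotheses. -/

noncomputable section

namespace Pool.Agent.Helper27.AB

open Pool.Agent.Helper24.AB Pool.Agent.Helper15.AB

theorem pola : S_POLA := Pool.Agent.Helper37.AB.POLA.pola
theorem polb : S_POLB := Pool.Agent.Helper5.AB.polb pola
theorem polp : S_POLP := Pool.Agent.Helper62.AB.POLP3.polp
theorem polf : S_POLF := Pool.Agent.Helper55.AB.polf pola polb Pool.Agent.Helper58.AB.atl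
theorem poll : S_POLL := Pool.Agent.Helper13.AB.poll pola polf Pool.Agent.Helper68.AB.lam Pool.Agent.Helper39.AB.tex
theorem smp : S_SMP := Pool.Agent.Helper56.AB.smp Pool.Agent.Helper39.AB.tex Pool.Agent.Helper16.AB.QF.qf_thm
theorem dtp : S_DTP := Pool.Agent.Helper3.AB.dtp pola polb polp polf poll Pool.Agent.Helper39.AB.tex
  Pool.Agent.Helper68.AB.lam

theorem phi3 : S_PHI3 :=
  phi3_of dtp smp Pool.Agent.Helper58.AB.CMW3.cmw Pool.Agent.Helper20.AB.eqv3
    (Pool.Agent.Helper50.AB.gwi Pool.Agent.Helper58.AB.atl)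
    Pool.Agent.Helper64.AB.BALL3.ball3_thm Pool.Agent.Helper16.AB.QF.qf_thm

end Pool.Agent.Helper27.AB
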