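import Pool.Agent.Helper24.AB.PHI.Goals
import Pool.Agent.Helper15.AB.GoalsE

/-! # Project AB, module PH3: `S_PHI3` of Helper24/AB/Defs2.lean (polynomial bounds, equivariance, integral formula).

Every `def S_XXX : Prop` is a packet; the packets named in the docstring may be taken as hypotheses. -/

open MeasureTheory Set Filter Topology
open scoped ContDiff

noncomputable section

namespace Pool.Agent.Helper27.AB

open Pool.Agent.Helper24.AB Pool.Agent.Helper15.AB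

/-- the parameters `(α, α', l)`, `α ≠ 0` -/
abbrev Par : Type := {q : ℝ × ℝ × ℝ // q.1 ≠ 0}

/-- the weight -/
def WP (q : Par) (t : ℝ) : ℝ := Wf q.1.1 q.1.2.1 q.1.2.2 t

/-- iterated partial derivative along a word, `true` = `∂_t`, `false` = `∂_σ`; `Dw [b, b'] f = ∂_b (∂_b' f)` -/
def Dw : List Bool → (ℂ → ℝ) → ℂ → ℝ
  | [], f => f
  | b :: w, f => if b then dT (Dw w f) else dS (Dw w f)

/-- Families (parameter `q`) of smooth functions on the strip all of whose word derivatives of length `≤ m` are bounded by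
`C * W ^ N`, uniformly in `q`. -/
structure PB (a : ℝ) (m : ℕ) (c : Par → ℂ → ℝ) : Prop where
  smooth : ∀ q, ContDiffOn ℝ ∞ (c q) (strip a)
  bdd : ∀ w : List Bool, w.length ≤ m → ∃ (C : ℝ) (N : ℕ), ∀ q, ∀ z ∈ strip a,
    |Dw w (c q) z| ≤ C * WP q z.im ^ N

/-- (POLA, 1.2 h) Algebra of the classes `PB a m`.
Proof. Facts: the strip is open; `W ≥ 2 ≥ 1`, so `C*W^N ≤ |C|*W^N'` for `N ≤ N'`; if two functions agree on the strip so do all their word
derivatives there (`Filter.EventuallyEq.fderiv_eq`); word derivatives of a smooth function on the strip are smooth on the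
strip; `Dw (w ++ [b]) f = Dw w (∂_b f)`.  (1), (2), (3): linearity of `Dw w` on smooth functions, on the strip. (5), (6): append a letter.
(4) product: induction on `m` for all families: `∂_b (c d) = (∂_b c) d + c ∂_b d` on the strip, use (1), (5), (6), (7).
(7) congruence. -/
def S_POLA : Prop := ∀ a : ℝ,
  (∀ m c d, PB a m c → PB a m d → PB a m (fun q z => c q z + d q z)) ∧
  (∀ m c, PB a m c → PB a m (fun q z => -c q z)) ∧
  (∀ m c (r : ℝ), PB a m c → PB a m (fun q z => r * c q z)) ∧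
  (∀ m c d, PB a m c → PB a m d → PB a m (fun q z => c q z * d q z)) ∧
  (∀ m c, PB a (m + 1) c → PB a m c ∧ PB a m (fun q => dS (c q)) ∧ PB a m (fun q => dT (c q))) ∧
  (∀ m c, PB a 0 c → PB a m (fun q => dS (c q)) → PB a m (fun q => dT (c q)) → PB a (m + 1) c) ∧
  (∀ m c d, (∀ q, ∀ z ∈ strip a, c q z = d q z) → PB a m c → PB a m d)

/-- (POLB, 1 h) Basic families; may use (POLA).
Proof. Constants: all derivatives vanish.  `u`: `dS u = 0`, `dT u = kap * u`, `|u| ≤ W`, induction on `m` with (POLA) (6).  `v`: `dT v = -kap * v`.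
`l`: constant in `z`, `|l| ≤ W`.  `h(σ)`: `dT = 0`, `dS (h ∘ re) = (deriv h) ∘ re`; a smooth function `h` on `ℝ` and all its derivatives are bounded on the
compact interval `[-a, a]`; induction on `m` for all smooth `h`. -/
def S_POLB : Prop := ∀ a : ℝ, 0 < a → ∀ m : ℕ,
  (∀ r : ℝ, PB a m (fun _ _ => r)) ∧
  PB a m (fun q z => uf q.1.1 z.im) ∧ PB a m (fun q z => vf q.1.2.1 z.im) ∧
  PB a m (fun q _ => q.1.2.2) ∧
  (∀ h : ℝ → ℝ, ContDiff ℝ ∞ h → PB a m (fun _ z => h z.re))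

/-- (POLP, 1.2 h) The potential.
Proof. Let `w` be a word and `f = Dw w p`: smooth on `strip (3a/2)`, and `f (z + 2πi) = lam * f z` for all `z` (induction on `w`: `p1` holds everywhere and
`fderiv` of `z ↦ p (z + 2πi) = lam * p z`).  `f` is bounded by some `M` on the compact set `|σ| ≤ a, 0 ≤ t ≤ 2π`.  For `z` in the strip let
`k = ⌊t/(2π)⌋`, `z = z₀ + 2πik`: `|f z| = lam^k |f z₀| ≤ M lam^k ≤ M exp (kap t)` (`lam = exp (2π kap)`, `lam > 1`; `lam ^ k` with an integer `k`), so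
`|α f z| ≤ M |u| ≤ M W`. -/
def S_POLP : Prop := ∀ (a δ₀ ρ₀ : ℝ) (p : ℂ → ℝ) (B : BlockData), 0 < a →
  IsPotential a δ₀ ρ₀ p B → ∀ m : ℕ, PB a m (fun q z => q.1.1 * p z)

/-- (POLF, 0.8 h) The function `F`; uses (POLA), (POLB), `S_ATL` of helper15 (proved).
Proof. On the strip `F = (Ã(σ)(a²-σ²)) u² + 4A²(a²-σ²)(v² + l²)` by `S_ATL`; `Ã` is smooth on `ℝ`. -/
def S_POLF : Prop := ∀ (a A : ℝ) (s : ℝ → ℝ), IsProfile a A s → ∀ m : ℕ,
  PB a m (fun q => Ff a A s q.1.1 q.1.2.1 q.1.2.2)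

/-- (POLL, 1 h) The derivatives of `Λ` along `F`; uses (POLA), (POLF), `S_LAM`, `S_TEX` (only `F > 0` on the strip).
Proof. Induction on `m` for all `j ≥ 1` simultaneously.  `Λ_j = iteratedDeriv j Lam` is smooth on `(0,∞)` and bounded there.  `m = 0`: the bound.
`m + 1`: on the strip `∂_b (Λ_j ∘ F) = (Λ_{j+1} ∘ F) * ∂_b F` (chain rule, `deriv (iteratedDeriv j Lam) = iteratedDeriv (j+1) Lam`), product of
families of class `PB a m`; then (POLA) (6), (7). -/
def S_POLL : Prop := ∀ (a A : ℝ) (s : ℝ → ℝ), IsProfile a A s → ∀ m j : ℕ, 1 ≤ j →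
  PB a m (fun q z => iteratedDeriv j Lam (Ff a A s q.1.1 q.1.2.1 q.1.2.2 z))

/-- (DTP, 1.2 h) `∂_t Φ` is of class `PB a m` for all `m`; uses (POLA), (POLB), (POLP), (POLF), (POLL) (`j = 1`, `iteratedDeriv_one`), `S_TEX` (`F > 0`),
`S_LAM` (smoothness of `Lam` on `(0,∞)`).
Proof. On the strip `log (s σ)`, `log (a²-σ²)` and the constant do not depend on `t`, `log (fy (2√F)) = Lam F`, so
`dT Φ = dT (α p) - A * kap * u - (1/2) * (deriv Lam F) * dT F`. -/
def S_DTP : Prop := ∀ (a A δ₀ ρ₀ : ℝ) (s : ℝ → ℝ) (p : ℂ → ℝ) (B : BlockData),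
  IsProfile a A s → IsPotential a δ₀ ρ₀ p B → ∀ m : ℕ,
    PB a m (fun q => dT (Phi a A s p q.1.1 q.1.2.1 q.1.2.2))

/-- (SMP, 0.5 h) `Φ` is smooth on the strip; uses `S_TEX` (`F > 0`), `S_QF` (`fy` smooth, positive).
Proof. `s > 0` smooth on `(-a,a)`, `a²-σ² > 0`, `F > 0` smooth, so `√F` is smooth; `p` is smooth on `strip (3a/2)`. -/
def S_SMP : Prop := ∀ (a A δ₀ ρ₀ : ℝ) (s : ℝ → ℝ) (p : ℂ → ℝ) (B : BlockData),
  IsProfile a A s → IsPotential a δ₀ ρ₀ p B → ∀ α α' l : ℝ, α ≠ 0 →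
    ContDiffOn ℝ ∞ (Phi a A s p α α' l) (strip a)

/-- (CMW, 1.2 h) Iterated `t`-derivatives of `f` and of `dz f` through words of `dT f`.
Proof. First: `Function.iterate_succ_apply`, and `Dw (replicate k true) g = dT^[k] g`.  Second: `w ↦ (f w : ℂ)` has `dS`, `dT` equal to the casts of `dS f`,
`dT f` at points where `f` is differentiable, so on the strip `dz f = ((dS f : ℂ) - I * (dT f : ℂ))/2`; `dT^[k+1]` of it is
`((dT^[k+1] dS f : ℂ) - I (dT^[k+1] dT f : ℂ))/2` on the strip (induction on `k`, all functions smooth on the open strip); `dT (dS f) = dS (dT f)` on the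
strip (symmetry of the second derivative, `ContDiffAt.isSymmSndFDerivAt`), hence `dT^[k+1] (dS f) = dT^[k] (dS (dT f))` on the strip. -/
def S_CMW : Prop := ∀ (a : ℝ) (f : ℂ → ℝ), ContDiffOn ℝ ∞ f (strip a) → ∀ k : ℕ, ∀ z ∈ strip a,
  dT^[k + 1] f z = Dw (List.replicate k true) (dT f) z ∧
  dT^[k + 1] (dz (fun w => (f w : ℂ))) z =
    ((Dw (List.replicate k true ++ [false]) (dT f) z : ℝ) -
      Complex.I * (Dw (List.replicate (k + 1) true) (dT f) z : ℝ)) / 2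

/-- (EQV, 0.8 h) Equivariance.
Proof. `alp (Jn J) = lam * alp J` (`lam * ph = 2 ph + 1`, `lam = ph + 1`), `alp' (Jn J) = lam⁻¹ * alp' J` (`ph' ^ 2 = lam⁻¹`, `ph' ^ 2 = ph' + 1`,
`ph' ^ 3 = 2 ph' + 1`), `exp (kap (t + 2π)) = lam exp (kap t)` (`lam > 0`), so `uf (alp J) (t + 2π) = uf (alp (Jn J)) t`,
`vf (alp' J) (t + 2π) = vf (alp' (Jn J)) t`; `(w + 2πi).re = w.re`, `(w + 2πi).im = w.im + 2π`; `p1`. -/
def S_EQV : Prop := ∀ (a A δ₀ ρ₀ : ℝ) (s : ℝ → ℝ) (p : ℂ → ℝ) (B : BlockData),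
  IsPotential a δ₀ ρ₀ p B →
    (∀ J w, PhiJ a A s p J (w + 2 * Real.pi * Complex.I) = PhiJ a A s p (Jn J) w)

/-- the open unit ball of `ℝ³` (Euclidean norm) -/
def ball3 : Set (Fin 3 → ℝ) := {η | ∑ i, η i ^ 2 < 1}

/-- (BALL, 1.5 h) The Laplace transform of the unit ball.
Proof. There is a linear isometry `O` of `EuclideanSpace ℝ (Fin 3)` with `O c = ‖c‖ e₀` (a reflection, or `LinearIsometry.extend`); it preserves the
volume (`LinearIsometryEquiv.measurePreserving`, `EuclideanSpace.volume_preserving_ofLp`) and the ball, `c·η = Oc·Oη`, so the integral is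
`∫_{ball} exp (2‖c‖ η₀)`.  By Fubini (`MeasureTheory.measurePreserving_piFinSuccAbove` or `volume_preserving_finTwoArrow`-type equivalences) it is
`∫_{-1}^1 exp (2‖c‖ τ) * area {η₁² + η₂² < 1 - τ²} dτ`, and the disc has area `π (1 - τ²)`; `fy` is the definition with `‖c‖ = √(∑ c_i²)`. -/
def S_BALL : Prop := ∀ c : Fin 3 → ℝ,
  ∫ η in ball3, Real.exp (2 * ∑ i, c i * η i) =
    Real.pi * fy (2 * Real.sqrt (∑ i, c i ^ 2))

/-- (GWI, 1.5 h) The fibre as an affine image of the ball; uses `S_ATL`.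
Proof. Let `w = σ + it`, `|σ| < a`, `e = a² - σ² > 0`.  The affine map `T η = X`, `X₀ = ph x₊ + ph' x₋`, `X₁ = x₊ + x₋`, `X₂ = x₀` with
`x₊ = exp (kap t) (A + s η₀) - p w`, `x₋ = exp (-kap t) (2A√e η₁)`, `x₀ = 2A√e η₂` is a bijection of `ball3` onto `Gw a A s p w`: for
`P = (X₀,X₁,X₂,w)`: `xp P = x₊`, `xm P = x₋` (`ph - ph' = √5`, `ph ph' = -1`), `ypf p P = A + s η₀`, `ymf P = 2A√e η₁`, and
`rfun P = s²η₀²/Ã + e(η₁² + η₂²) - e = e (∑ η_i² - 1)` because `Ã e = s²` (`S_ATL`).  The linear part of `T` has determinant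
`√5 · exp (kap t) s · exp (-kap t) 2A√e · 2A√e = 4√5 A² s e` (up to sign), so
`∫_{Gw} h = 4√5 A² s e ∫_{ball3} h ∘ T` (`MeasureTheory.integral_image_eq_integral_abs_det_fderiv_smul` or
`Measure.map_linearMap_addHaar_eq_smul_addHaar`); the exponent is `2 (α x₊ + α' x₋ + l x₀)`
`= 2 (u A - α p) + 2 (u s η₀ + 2A√e v η₁ + 2A√e l η₂)`. -/
def S_GWI : Prop := ∀ (a A : ℝ) (s : ℝ → ℝ) (p : ℂ → ℝ), IsProfile a A s →
  ∀ α α' l : ℝ, ∀ w ∈ strip a,
    (∫ X in Gw a A s p w, Real.exp (2 * (α * ((X 0 - ph' * X 1) / Real.sqrt 5) +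
      α' * ((ph * X 1 - X 0) / Real.sqrt 5) + l * X 2))) =
    4 * Real.sqrt 5 * A ^ 2 * s w.re * (a ^ 2 - w.re ^ 2) *
      Real.exp (2 * (A * uf α w.im - α * p w)) *
      ∫ η in ball3, Real.exp (2 * ∑ i, (![s w.re * uf α w.im,
        2 * A * Real.sqrt (a ^ 2 - w.re ^ 2) * vf α' w.im,
        2 * A * Real.sqrt (a ^ 2 - w.re ^ 2) * l] : Fin 3 → ℝ) i * η i)

end Pool.Agent.Helper27.AB
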